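import Mathlib
import Pool.Agent.H13.EC.Final

/-!
# Larsen's conjecture for elliptic curves

Let `F` be a field which is not algebraic over a finite field (for example any infinite finitely
generated field), of any characteristic, two included, let `σ₁, …, σₑ` be automorphisms of `F_sep`
over `F` and `K = F_sep(σ)` their fixed field. Every elliptic curve over `K` (in particular every
elliptic curve over `F`) has infinite rank over `K`.

Outline of the proof.

* Characteristic different from two. Completing the square, the coordinate ring of `E` is
  `K[x, y] / (y² - f(x))` with `f` separable of degree three, and every ideal class of this ring is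
  the class of a point: an invertible ideal of codimension `n` contains a function with at most
  `n + 1` poles, so its inverse is equivalent to an ideal of codimension at most one. The rank of
  the Picard group of this ring is infinite: this is the theorem on hyperelliptic curves.
* Characteristic two. `K / ℘(K)` is finite, `℘(x) = x² + x`. Suppose that the rank is finite and let
  `M` be a finitely generated subfield of `K` over which the curve and points spanning `E(K)` up to
  torsion are defined. As `M / ℘(M)` is infinite there are `g ∈ M` which is in `℘(K)` but not in
  `℘(M)` and an automorphism `τ` over `M` of an algebraic closure with `τ(r) = r + 1` for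
  `℘(r) = g`. Let `ψ : M → V` be given by the class in `K / ℘(K)` and the Artin-Schreier character of
  `τ`. One needs `x ∈ M`, large for a given valuation, with
  `ψ((x³ + a₂x² + a₄x + a₆) / (a₁x + a₃)²) = ψ(g)`: then `x` is the first coordinate of a point
  `P ∈ E(K)` with `τ P = - P`, not torsion because of the duplication formula, a contradiction.
  If `a₁ ≠ 0` one has to solve `ψ(Az + C/z + D/z²) = ψ(g')`: for generic `mᵢ ∈ M` there is `x` with
  `ψ((A + 1/(mᵢ + mⱼ))(x + A mᵢ²)) = ψ(g')` for all `i < j`, two of the points `xᵢ = x + A mᵢ²` have
  the same value of `ψ(C/xᵢ + D/xᵢ²)`, and `1/z = 1/xᵢ + 1/xⱼ` solves the problem. If `a₁ = 0` the map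
  `x ↦ ψ(x³ / a₃² + …)` is quadratic, the values which it takes on every subgroup of finite index
  form a group, and a character which kills it on such a subgroup is zero.
-/

namespace Pool.Agent.Results.MP_6b5a9a_nt.EllipticCurves

open scoped TensorProduct

open scoped Classical in
/-- Let `F` be a field which is not algebraic over any finite subfield, `F_sep` a separable closure,
`σ = (σ₁, …, σₑ) ∈ Gal(F_sep / F)ᵉ`, and `K = F_sep(σ)` the subfield of `F_sep` fixed by all `σᵢ`.
For every elliptic curve `E` over `K`, the rank `dim_ℚ (ℚ ⊗ E(K))` is infinite. -/
theorem result (F : Type*) [Field F]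
    (hF : ∀ k : Subfield F, Finite k → ¬ Algebra.IsAlgebraic k F) (e : ℕ)
    (σ : Fin e → (SeparableClosure F ≃ₐ[F] SeparableClosure F))
    (E : WeierstrassCurve (IntermediateField.fixedField (Subgroup.closure (Set.range σ))))
    [E.IsElliptic] :
    ¬ FiniteDimensional ℚ (ℚ ⊗[ℤ] E.toAffine.Point) :=
  Pool.Agent.H13.EC.main F hF e σ E

end Pool.Agent.Results.MP_6b5a9a_nt.EllipticCurves
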