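import Mathlib
import Pool.Agent.H13.EV.Final

/-!
# Larsen's conjecture for all hyperelliptic curves, every characteristic except two

Let `F` be a field of characteristic different from two which is not algebraic over a finite field
(for example any infinite finitely generated field of characteristic different from two),
`σ₁, …, σₑ` automorphisms of `F_sep` over `F`, `K = F_sep(σ)` their fixed field and `f ∈ K[x]` a
separable polynomial of degree at least three. Then the Picard group of the affine curve
`y² = f(x)` over `K` has infinite rank. It is a quotient of the Picard group of the smooth
projective curve `C` with this equation by the classes of the points at infinity, so the Jacobian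
of `C` has infinite rank over `K`. All elliptic curves, all curves of genus two and all
hyperelliptic curves over `K` have such an equation (if a hyperelliptic curve is a double cover of
the projective line).

Outline of the proof. Suppose the rank is finite. Let `M` be a finitely generated field which
contains the roots of `f`, a square root of the leading coefficient and the data of representatives
of finitely many classes spanning the group up to torsion, and let `G` be the finite group through
which `Gal(K_sep/K)` acts on `M`.

* Points. If the degree is odd the Hales-Jewett theorem gives `x₀ ∈ M` such that all `g x₀ - α`
  (`g ∈ G`, `f(α) = 0`) are in one square class of `M`, nontrivial in `M` but trivial over `K M`. If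
  the degree is `2g + 2`, one takes `x₀ = α + κ / z`, `κ = f'(α)`, for one root `α`: then `f(x₀)` is a
  square times the product of the `2g + 1` factors `z - κ / (α' - α)`. So there is a point `P` over
  `x₀` with `τ (γ P) = - γ P` for an automorphism `τ` which fixes `M`, and a multiple of the divisor
  `D = Σ_g g P`, which is rational over `K`, is principal.
* No torsion. In odd degree `D` is in the kernel of reduction at a place above `2` (characteristic
  zero) or at a pole of a transcendental element (characteristic `p`), where there is no torsion:
  this is done with polynomials and a valuation. For the `p`-torsion in characteristic `p` one uses
  that the logarithmic differential of a function with divisor divisible by `p` is fixed by the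
  Cartier operator, so its coefficients satisfy additive polynomial equations over `M` and vanish,
  being small. In even degree one passes to the model of odd degree where `α` is at infinity (the
  function with divisor `N D` can be chosen balanced at infinity because `τ` fixes the points at
  infinity); the points `γ P` are close to the Weierstrass points `γ α`, and the steep lines through
  `γ P` and `γ α` move them to points close to infinity.
* So `D` is equivalent to a sum of Weierstrass points, which a dimension count excludes for suitable
  `x₀`.
-/

namespace Pool.Agent.Results.MP_6b5a9a_nt.Hyperelliptic

open scoped TensorProduct
open Polynomial

/-- Let `F` be a field of characteristic different from `2` which is not algebraic over any finite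
subfield, `F_sep` a separable closure, `σ = (σ₁, …, σₑ) ∈ Gal(F_sep / F)ᵉ`, and `K = F_sep(σ)` the
subfield of `F_sep` fixed by all `σᵢ`. For every separable polynomial `f` over `K` of degree at
least `3`, the Picard group of the ring `K[x, y] / (y² - f(x))` has infinite rank. -/
theorem result (F : Type*) [Field F] (h2 : (2 : F) ≠ 0)
    (hF : ∀ k : Subfield F, Finite k → ¬ Algebra.IsAlgebraic k F) (e : ℕ)
    (σ : Fin e → (SeparableClosure F ≃ₐ[F] SeparableClosure F))
    (f : (IntermediateField.fixedField (Subgroup.closure (Set.range σ)))[X])
    (hf : f.Separable) (hdeg : 3 ≤ f.natDegree) :
    ¬ FiniteDimensional ℚ (ℚ ⊗[ℤ] Additive (CommRing.Pic (AdjoinRoot (X ^ 2 - C f)))) :=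
  Pool.Agent.H13.EV.main F h2 hF e σ f hf hdeg

end Pool.Agent.Results.MP_6b5a9a_nt.Hyperelliptic
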