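import Mathlib
import Pool.Agent.H29.LA.Main2

/-!
# Larsen's conjecture for abelian varieties of all dimensions and special tuples

Let `F` be an infinite finitely generated field, `A` a commutative group scheme over `F`, separated
and locally of finite type (for example an abelian variety), `σ₁, …, σₑ` in the absolute Galois
group of `F`, `G` the closed subgroup generated by them and `K = F_sep(σ)` its fixed field. Suppose
that `A` receives a curve of degree `m` over `F_sep` (see below), `m > 1` prime to the
characteristic, and that every continuous transitive action on `m` points of every small open
subgroup of `G` contains an odd permutation (in characteristic two: there are no such actions). Then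
`A(K)` has infinite rank. The condition on `G` holds in the following cases:

* `G` has an open subgroup of order prime to `l`, a prime number different from the characteristic,
  and `m` is a power of `l`;
* the characteristic is not two, `G` has an open subgroup with procyclic Sylow `2`-subgroups, and
  `m` is a power of two;
* the characteristic is not two, `G` has an open subgroup which is prosupersolvable (for example
  pronilpotent), and `m = 2 p`, `p` an odd prime different from the characteristic.

`A` receives a curve of degree `m` if there are a curve `f(x, y) = 0`, `f` monic of degree `m` in
`y`, with a smooth point above `x₀` where the projection to the line is totally ramified, and a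
morphism from an open part of it to `A` such that in some fibre over the line no proper part has the
same average as the whole fibre. Every abelian variety `A` of positive dimension receives curves of
every large degree `m` prime to the characteristic: let `C` be a smooth curve in `A` which contains
the point `O = 0`, and `φ` a general function on `C` with the divisor of poles `m O`; put `x = 1/φ`
and let `y` be a local coordinate at `O` multiplied by a suitable polynomial in `x`. The points
above a general `x` are permuted doubly transitively by the geometric monodromy group, so an
identity between the averages of a part and of the whole fibre would imply that the morphism from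
`C` to `A` is constant on the fibres; if the characteristic is not two the branch points are simple
and separable. This classical fact is not proved here.

Outline of the proof.

* Suppose that the rank is finite. Let `M` be a finite Galois extension of `F` over which
  everything is defined, the points of `A(K)` up to torsion included, `Γ` the group generated by the
  `σᵢ` and `Γ_M` the group of its elements which are trivial on `M`. By the theorem of Hales and
  Jewett there is `x` in `M`, close to `x₀`, such that the discriminant of `f(x, Y)` is a square in
  the fixed field of `Γ_M`, and such that for a discrete valuation `w` of `M` the value of `x - x₀`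
  is prime to `m`, and the values of the conjugates of `x - x₀` are positive multiples of `m`. So
  `Γ_M` acts on the fibre `Z` of `x` by even permutations, hence not transitively: there is a stable
  proper part `O`. On the other hand `Z` is totally ramified at `w` and the conjugate fibres are
  unramified, so the automorphisms over `M` which fix all points of the conjugate fibres permute
  the points of `Z` transitively.
* The sum `a` of the points of `A` which belong to `O` is fixed by `Γ_M`, and a multiple of its
  trace to `K` is fixed by these automorphisms. So a multiple of `a` is fixed by them, and the
  average of the part `O` is the average of `Z`, up to torsion.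
* This is impossible for `x` close to `x₀`: the difference is the value of a morphism from a curve
  to `A` which vanishes at the only point above `x₀` and is not identically zero; such values are
  close to `0`, different from `0` and not torsion.
-/

namespace Pool.Agent.Results.MP_6b5a9a_nt.SpecialTuples

open AlgebraicGeometry CategoryTheory

open scoped MonObj TensorProduct

open Pool.H27.LG2 Pool.Agent.H29.LA

/-- Let `F` be an infinite field which is finitely generated (over its prime field), `A` a
commutative group scheme over `F`, separated and locally of finite type. If the characteristic of
`F` is a prime `p`, suppose that `A(F_sep)` has only finitely many points killed by `p`. Let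
`σ = (σ₁, …, σₑ) ∈ Gal(F_sep / F)ᵉ`, `Γ` the group generated by the `σᵢ` and `K = F_sep(σ)`.
The group `A(K)` has infinite rank in each of the following cases:
* `A` receives a curve of degree `m` over `F_sep`, `m > 1` prime to the characteristic, and all
  continuous transitive actions on `m` points of all small open subgroups of the closure of `Γ`
  contain an odd permutation (in characteristic two: there are none);
* `A` receives a curve of degree `l ^ k`, `l ≠ char F` a prime number, `k > 0`, and the closure of
  `Γ` has an open subgroup of order prime to `l`;
* `char F ≠ 2`, `A` receives a curve of degree `2 ^ k`, `k > 0`, and the closure of `Γ` has an open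
  subgroup with procyclic Sylow `2`-subgroups;
* `char F ≠ 2`, `A` receives a curve of degree `2 p`, `p ≠ char F` an odd prime number, and the
  closure of `Γ` has an open subgroup which is prosupersolvable. -/
theorem result (F : Type) [Field F] [Infinite F]
    (hF : ∃ S : Finset F, Subfield.closure (S : Set F) = ⊤)
    (A : Over (Spec (.of F))) [GrpObj A] [IsCommMonObj A] [IsSeparated A.hom]
    [LocallyOfFiniteType A.hom] (hA : FiniteCharTorsion A (SeparableClosure F))
    (e : ℕ) (σ : Fin e → (SeparableClosure F ≃ₐ[F] SeparableClosure F)) :
    (∀ m : ℕ, 1 < m → (m : F) ≠ 0 → ReceivesCurve (SeparableClosure F) A m →
      OddActions m (Subgroup.closure (Set.range σ)) →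
      HasInfiniteRank A (IntermediateField.fixedField (Subgroup.closure (Set.range σ)))) ∧
    (∀ l k : ℕ, l.Prime → (l : F) ≠ 0 → 0 < k →
      ReceivesCurve (SeparableClosure F) A (l ^ k) →
      Virtually (fun H _ => OrderPrimeTo l H) (Subgroup.closure (Set.range σ)) →
      HasInfiniteRank A (IntermediateField.fixedField (Subgroup.closure (Set.range σ)))) ∧
    ((2 : F) ≠ 0 → ∀ k : ℕ, 0 < k → ReceivesCurve (SeparableClosure F) A (2 ^ k) →
      Virtually (fun H _ => CyclicSylowTwo H) (Subgroup.closure (Set.range σ)) →
      HasInfiniteRank A (IntermediateField.fixedField (Subgroup.closure (Set.range σ)))) ∧
    ((2 : F) ≠ 0 → ∀ p : ℕ, p.Prime → p ≠ 2 → (p : F) ≠ 0 →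
      ReceivesCurve (SeparableClosure F) A (2 * p) →
      Virtually (fun H _ => Supersolvable H) (Subgroup.closure (Set.range σ)) →
      HasInfiniteRank A (IntermediateField.fixedField (Subgroup.closure (Set.range σ)))) := by
  have hΓ : (Subgroup.closure (Set.range σ)).FG :=
    ⟨(Set.finite_range σ).toFinset, by rw [Set.Finite.coe_toFinset]⟩
  obtain ⟨h1, h2, h3⟩ := cls F (SeparableClosure F) (Subgroup.closure (Set.range σ))
  have hmain : ∀ m : ℕ, 1 < m → (m : F) ≠ 0 → ReceivesCurve (SeparableClosure F) A m →
      OddActions m (Subgroup.closure (Set.range σ)) →
      HasInfiniteRank A (IntermediateField.fixedField (Subgroup.closure (Set.range σ))) :=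
    fun m hm hmF hc ho => fin F A m _ hF hA hm hmF hc hΓ ho
  refine ⟨hmain, ?_, ?_, ?_⟩
  · intro l k hl hlF hk hc hv
    refine hmain (l ^ k) (Nat.one_lt_pow hk.ne' hl.one_lt) ?_ hc (h1 l k hl hk hv)
    rw [Nat.cast_pow]
    exact pow_ne_zero k hlF
  · intro h20 k hk hc hv
    refine hmain (2 ^ k) (Nat.one_lt_pow hk.ne' (by norm_num)) ?_ hc (h2 h20 k hk hv)
    rw [Nat.cast_pow]
    exact pow_ne_zero k h20
  · intro h20 p hp hp2 hpF hc hv
    have hp1 := hp.one_lt
    refine hmain (2 * p) (by omega) ?_ hc (h3 h20 p hp hp2 hv)
    rw [Nat.cast_mul]
    exact mul_ne_zero h20 hpF

end Pool.Agent.Results.MP_6b5a9a_nt.SpecialTuples
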