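import Mathlib
import Pool.Agent.H27.LG.Final2
import Pool.Agent.H27.LG.Stmt2

/-!
# Larsen's conjecture for abelian varieties which receive a superelliptic curve

Let `F` be an infinite finitely generated field, `A` a commutative group scheme over `F`, separated
and locally of finite type (for example an abelian variety: a proper geometrically integral group
scheme over a field is commutative), and suppose that over `F_sep` there is a morphism `δ` to `A`
from the part `h(x) ≠ 0` of a curve `y ^ l = f(x)`, where `l > 1` is prime to the characteristic,
`f` splits and has a root `x₀`, `h(x₀) ≠ 0`, whose multiplicity is prime to `l`, which separates two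
points with the same `x`. In characteristic `p` we also ask that `A` has only finitely many points
of order `p` over `F_sep`, which is the case for abelian varieties. Then for all `σ₁, …, σₑ` in the
absolute Galois group of `F` the group `A(K)`, `K = F_sep(σ)`, has infinite rank.

If `A` is an abelian variety, the condition means that over `F_sep` there is a nonconstant morphism
to `A` from a smooth projective curve `C` with a cyclic cover `C → ℙ¹` of degree `l` which is
totally ramified at some point; if `l` is a prime number there is always such a point. (Every
morphism from a rational curve to `A` is constant, so a nonconstant morphism is not constant on the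
fibres of `C → ℙ¹`; the function `y` can be chosen such that `f` splits and `x₀` is a simple root,
and then an open part of `C` is given by `y ^ l = f(x)`, `h(x) ≠ 0`, with `h(x₀) ≠ 0`.)

So Larsen's conjecture holds for all abelian surfaces in characteristic different from two, and for
all abelian varieties with a factor of dimension at most two over `F_sep`, because over a separably
closed field every abelian surface receives a nonconstant morphism from a curve of genus one or two.

Outline of the proof.

* The curve and `δ` are defined over a finite extension `L` of `F`. Assume that the rank is finite.
  All points of `A(K)` are, up to torsion, combinations of points over some finite Galois extension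
  `M` of `F` containing `L`. By the theorem of Hales and Jewett and because `K*/K*ˡ` is finite there
  is `x` in `F`, as close to `x₀` as we want (for a valuation of `F_sep`), such that the curve has a
  point `P = (x, y)` over `K L`, and such that `f(x)` is independent, modulo `l`-th powers of `M`,
  of its conjugates. So there is `τ` over `M` with `τ y = ζ y` which fixes the other conjugates of
  `P`. The trace `t` of `δ(P)` from `K L` to `K` satisfies `τ t - t = N (δ(x, ζ y) - δ(x, y))`,
  which must be a torsion point.
* This point is not torsion. The difference `D(x, y) = δ(x, y) - δ(x, ζ y)` vanishes at `(x₀, 0)`,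
  the only point of the curve above `x₀`, and is not identically zero, so for `x` close to `x₀` it
  is a point of `A` close to `0` and different from `0`. In an affine chart of `A` at `0` with
  coordinates `u` one has `u(P + Q) = u(P) + u(Q) + O(|u(P)| |u(Q)|)`, hence
  `u(N P) = N u(P) + O(|u(P)|²)` with a constant which does not depend on `N`. This shows
  `N P ≠ 0` for all `N ≠ 0` if `P ≠ 0` is close to `0`; for the prime `p` with `|p| < 1` one uses
  `|u(p P)| = |p| |u(P)|`, and in characteristic `p` the finiteness of the `p`-torsion.
-/

namespace Pool.Agent.Results.MP_6b5a9a_nt.SuperellipticImages

open AlgebraicGeometry CategoryTheory Polynomial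

open scoped MonObj TensorProduct

open Pool.H27.LG2

/-- Let `F` be an infinite field which is finitely generated (over its prime field), `A` a
commutative group scheme over `F`, separated and locally of finite type. If the characteristic of
`F` is a prime `p`, suppose that `A(F_sep)` has only finitely many points killed by `p`. Let `l > 1`
be an integer prime to the characteristic, `f` and `h` polynomials over `F_sep` such that `f` splits
and has a root `x₀` whose multiplicity is prime to `l`, and `h(x₀) ≠ 0`, and let `δ` be a morphism
over `F` from the affine curve `Spec F_sep[x, y, 1 / h(x)] / (y ^ l - f(x))` to `A` which takes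
different values at some two `F_sep`-points of this curve with the same `x`. Then for all
`σ = (σ₁, …, σₑ) ∈ Gal(F_sep / F)ᵉ` the group `A(F_sep(σ))` has infinite rank. -/
theorem result (F : Type) [Field F] [Infinite F]
    (hF : ∃ S : Finset F, Subfield.closure (S : Set F) = ⊤)
    (A : Over (Spec (.of F))) [GrpObj A] [IsCommMonObj A] [IsSeparated A.hom]
    [LocallyOfFiniteType A.hom] (hA : FiniteCharTorsion A (SeparableClosure F))
    (l : ℕ) (hl : 1 < l) (hlF : (l : F) ≠ 0)
    (f h : (SeparableClosure F)[X]) (hf : f.Splits) (x₀ : SeparableClosure F)
    (hx₀ : (f.rootMultiplicity x₀).Coprime l) (hh₀ : h.eval x₀ ≠ 0)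
    (δ : SpecOver F (CurveRing f h l) ⟶ A) (hδ : SeparatesFibre δ)
    (e : ℕ) (σ : Fin e → (SeparableClosure F ≃ₐ[F] SeparableClosure F)) :
    HasInfiniteRank A (IntermediateField.fixedField (Subgroup.closure (Set.range σ))) := by
  refine Pool.H27.LG.main2 F hF (SeparableClosure F) A hA l hl hlF f h hf x₀ hx₀ hh₀ δ ?_ _ ?_
  · obtain ⟨P, Q, hPQ, hne⟩ := hδ
    refine ⟨P, Q, hPQ, fun heq => hne ?_⟩
    exact congrArg (fun m => m.left) heq
  · exact ⟨(Set.finite_range σ).toFinset, by rw [Set.Finite.coe_toFinset]⟩

end Pool.Agent.Results.MP_6b5a9a_nt.SuperellipticImages
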